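import Pool.Agent.E8helper78.I2.Final

/-!
Problem MP_688fd0_co: every finite group with an abelian subgroup of index two has, for every
symmetric generating set, a listing sequence.
-/

namespace Pool.Agent.Results.MP_688fd0_co.AbelianIndexTwoH78

open Pool.Agent.E8helper78.NC Pool.Agent.E8helper78.I2

universe u

/-- The sequence `a` of `|G|` elements of `A` has pairwise distinct partial products
`a₁`, `a₁ a₂`, ..., `a₁ ⋯ aₙ`, `n = |G|`; so these run through `G`. -/
def Listing {G : Type u} [Group G] (A : Set G) (a : Fin (Nat.card G) → G) : Prop :=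
  (∀ i, a i ∈ A) ∧
  Function.Injective (fun k : Fin (Nat.card G) => ((List.ofFn a).take (k.val + 1)).prod)

/-- Every symmetric generating set of a finite group with an abelian subgroup of index two has a
listing sequence. -/
theorem result {G : Type u} [Group G] [Finite G] (B : Subgroup G) (hindex : B.index = 2)
    (hcomm : ∀ x ∈ B, ∀ y ∈ B, x * y = y * x)
    (A : Set G) (hsymm : ∀ x ∈ A, x⁻¹ ∈ A)
    (hgen : Subgroup.closure A = ⊤) : ∃ a : Fin (Nat.card G) → G, Listing A a := by
  have hB : Two B := ⟨hcomm, fun x hx y hy =>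
    (Subgroup.mul_mem_iff_of_index_two hindex).2 (iff_of_false hx hy)⟩
  have hex : ∃ s ∈ A, s ∉ B := by
    by_contra hcon
    push Not at hcon
    have h1 : Subgroup.closure A ≤ B := (Subgroup.closure_le B).2 hcon
    rw [hgen, top_le_iff] at h1
    rw [h1, Subgroup.index_top] at hindex
    omega
  obtain ⟨s, hs, hsB⟩ := hex
  exact listing ⟨s, hs⟩ (wd_top hB hsymm hgen hs hsB)

end Pool.Agent.Results.MP_688fd0_co.AbelianIndexTwoH78
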