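import Pool.Agent.E8helper78.NC.Main

/-!
Problem MP_688fd0_co: every finite group whose commutator subgroup is central (nilpotency class
at most two) has, for every nonempty symmetric generating set, a listing sequence.
-/

namespace Pool.Agent.Results.MP_688fd0_co.ClassTwoH78

open Pool.Agent.E8helper78.NC
open scoped commutatorElement

universe u

/-- The sequence `a` of `|G|` elements of `A` has pairwise distinct partial products
`a₁`, `a₁ a₂`, ..., `a₁ ⋯ aₙ`, `n = |G|`; so these run through `G`. -/
def Listing {G : Type u} [Group G] (A : Set G) (a : Fin (Nat.card G) → G) : Prop :=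
  (∀ i, a i ∈ A) ∧
  Function.Injective (fun k : Fin (Nat.card G) => ((List.ofFn a).take (k.val + 1)).prod)

/-- Every nonempty symmetric generating set of a finite group of nilpotency class at most two
has a listing sequence. -/
theorem result {G : Type u} [Group G] [Finite G] (hG : commutator G ≤ Subgroup.center G)
    (A : Set G) (hne : A.Nonempty) (hsymm : ∀ x ∈ A, x⁻¹ ∈ A)
    (hgen : Subgroup.closure A = ⊤) : ∃ a : Fin (Nat.card G) → G, Listing A a := by
  have hc : CC G := by
    intro x y z
    have h1 : x⁻¹ * y⁻¹ * x * y ∈ commutator G := by
      have h2 : ⁅x⁻¹, y⁻¹⁆ ∈ commutator G := by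
        rw [commutator_def]
        exact Subgroup.commutator_mem_commutator (Subgroup.mem_top x⁻¹) (Subgroup.mem_top y⁻¹)
      rw [commutatorElement_def, inv_inv, inv_inv] at h2
      exact h2
    exact Subgroup.mem_center_iff.1 (hG h1) z
  exact main hc hne hsymm hgen

end Pool.Agent.Results.MP_688fd0_co.ClassTwoH78
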