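import Pool.Agent.E8helper62.HL.Final

/-!
Problem MP_688fd0_co: a symmetric generating set that contains slightly more than half of the
elements of some subgroup has a closed listing sequence.
-/

set_option autoImplicit false

namespace Pool.Agent.Results.MP_688fd0_co.DenseSubgroupH62

universe u

/-- `a_1, …, a_n ∈ A` (`n = |G|`) have pairwise distinct partial products `a_1 ⋯ a_k`
(`1 ≤ k ≤ n`), and `a_1 ⋯ a_n = 1`. So the sequence is listing, and its partial products form a
Hamiltonian cycle of the Cayley graph. -/
def ClosedListing {G : Type u} [Group G] (A : Set G) (a : Fin (Nat.card G) → G) : Prop :=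
  (∀ i, a i ∈ A) ∧
  Function.Injective (fun k : Fin (Nat.card G) => ((List.ofFn a).take (k.val + 1)).prod) ∧
  (List.ofFn a).prod = 1

/-- Let `G` be a finite group, `A` a symmetric generating set and `H` any subgroup with
`2 |(A ∩ H) ∖ {1}| ≥ |H| + 17`. Then there is a closed listing sequence of elements of `A`. -/
theorem result : ∀ (G : Type u) [Group G] [Finite G] (A : Set G), (∀ x ∈ A, x⁻¹ ∈ A) →
    Subgroup.closure A = ⊤ → ∀ H : Subgroup G,
    Nat.card H + 17 ≤ 2 * Set.ncard {x : G | x ∈ A ∧ x ∈ H ∧ x ≠ 1} →
    ∃ a : Fin (Nat.card G) → G, ClosedListing A a := by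
  intro G _ _ A hA hgen H hB
  exact Pool.Agent.E8helper62.HL.exists_listing H A hA hgen hB

end Pool.Agent.Results.MP_688fd0_co.DenseSubgroupH62
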