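import Pool.Agent.E8helper34.HC.Fin

/-!
Problem MP_688fd0_co: Hamiltonian paths and closed listing sequences for the symmetric and
alternating groups, when each letter is the largest one moved by some generator.
-/

namespace Pool.Agent.Results.MP_688fd0_co.PermutationChainsH34

open Equiv

/-- `A` contains a permutation which moves the letter `k` and no larger one. -/
def TopLetter {n : ℕ} (A : Set (Perm (Fin n))) (k : Fin n) : Prop :=
  ∃ a ∈ A, a k ≠ k ∧ ∀ i : Fin n, k < i → a i = i

/-- `l` lists the elements of `⟨A⟩`, each of them once, starts with `x` and ends with `y`, and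
each element of `l` is obtained from the preceding one by right multiplication by an element of
`A`: a Hamiltonian path from `x` to `y` in the Cayley graph of `⟨A⟩`. -/
def HamPath {n : ℕ} (A : Set (Perm (Fin n))) (x y : Perm (Fin n)) (l : List (Perm (Fin n))) :
    Prop :=
  l.Nodup ∧ (∀ g, g ∈ l ↔ g ∈ Subgroup.closure A) ∧ l.IsChain (fun g h => g⁻¹ * h ∈ A) ∧
    l.head? = some x ∧ l.getLast? = some y

/-- `a_1, …, a_N ∈ A`, where `N` is the order of `⟨A⟩`, have pairwise distinct partial products
`a_1, a_1 a_2, …, a_1 ⋯ a_N`, the last of which is `1`. -/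
def ClosedListing {n : ℕ} (A : Set (Perm (Fin n)))
    (a : Fin (Nat.card (Subgroup.closure A)) → Perm (Fin n)) : Prop :=
  (∀ i, a i ∈ A) ∧
  Function.Injective (fun k : Fin (Nat.card (Subgroup.closure A)) =>
    ((List.ofFn a).take (k.val + 1)).prod) ∧
  (List.ofFn a).prod = 1

open Pool.Agent.E8helper34.HC in
/-- Let `A ⊆ S_n`, `n ≥ 4`, be symmetric, and suppose that each letter except for the two smallest
ones is the largest letter moved by some element of `A`. Suppose that either all elements of `A`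
are even, or `A` contains the transposition of the two smallest letters and moreover all elements
of `A` are odd or some nonidentity even element of `A` moves only the four smallest letters. Then
`⟨A⟩` is `A_n` in the first case and `S_n` in the others; any two different elements of `⟨A⟩` (of
different sign, if all elements of `A` are odd) are joined by a Hamiltonian path of the Cayley
graph; and there is a closed listing sequence. -/
theorem result {n : ℕ} (hn : 4 ≤ n) (A : Set (Perm (Fin n))) (hA : ∀ a ∈ A, a⁻¹ ∈ A)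
    (hT : ∀ k : Fin n, 2 ≤ k.val → TopLetter A k)
    (hS : (∀ a ∈ A, Perm.sign a = 1) ∨
      ((∀ k : Fin n, k.val = 1 → TopLetter A k) ∧ ((∀ a ∈ A, Perm.sign a = -1) ∨
        ∃ b ∈ A, b ≠ 1 ∧ Perm.sign b = 1 ∧ ∀ i : Fin n, 4 ≤ i.val → b i = i))) :
    (((∀ a ∈ A, Perm.sign a = 1) ∧ Subgroup.closure A = alternatingGroup (Fin n)) ∨
      Subgroup.closure A = ⊤) ∧
    (∀ x ∈ Subgroup.closure A, ∀ y ∈ Subgroup.closure A, x ≠ y →
      ((∀ a ∈ A, Perm.sign a = -1) → Perm.sign x ≠ Perm.sign y) → ∃ l, HamPath A x y l) ∧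
    ∃ a : Fin (Nat.card (Subgroup.closure A)) → Perm (Fin n), ClosedListing A a := by
  classical
  -- an element of `A` which moves the last letter
  obtain ⟨c, hcA, hc1, -⟩ := hT ⟨n - 1, by omega⟩ (by show 2 ≤ n - 1; omega)
  have hc : c ≠ 1 := fun h => hc1 (by rw [h]; rfl)
  -- the Hamilton-connected case
  have conn : ∀ H : Subgroup (Perm (Fin n)), A ⊆ H → HC A H → Subgroup.closure A = H ∧
      (∀ x ∈ Subgroup.closure A, ∀ y ∈ Subgroup.closure A, x ≠ y → ∃ l, HamPath A x y l) ∧
      ∃ a : Fin (Nat.card (Subgroup.closure A)) → Perm (Fin n), ClosedListing A a := by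
    intro H hAH hHC
    obtain ⟨l, hl⟩ := hHC 1 H.one_mem c (hAH hcA) (Ne.symm hc)
    have hcl : Subgroup.closure A = H := closure_eq hAH hl
    refine ⟨hcl, ?_, ?_⟩
    · intro x hx y hy hxy
      rw [hcl] at hx hy
      obtain ⟨l, h1, h2, h3, h4, h5⟩ := hHC x hx y hy hxy
      refine ⟨l, h1, ?_, h3, h4, h5⟩
      intro g
      rw [h2, hcl, SetLike.mem_coe]
    · unfold ClosedListing
      rw [hcl]
      obtain ⟨l, hl⟩ := hHC c (hAH hcA) 1 H.one_mem hc
      exact closed_sub hl (by rwa [inv_one, one_mul])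
  rcases hS with hev | ⟨hT1, hodd | hb⟩
  · -- even generators
    have h1 := HC_alt hn A hA hev hT n hn le_rfl
    rw [Aj_top] at h1
    obtain ⟨h2, h3, h4⟩ := conn (alternatingGroup (Fin n)) (fun a ha =>
      Perm.mem_alternatingGroup.2 (hev a ha)) h1
    exact ⟨Or.inl ⟨hev, h2⟩, fun x hx y hy hxy _ => h3 x hx y hy hxy, h4⟩
  · -- odd generators
    have hT' : ∀ k : Fin n, 1 ≤ k.val → Pool.Agent.E8helper34.HC.Top A k := by
      intro k hk
      rcases Nat.eq_or_lt_of_le hk with h | h
      · exact hT1 k h.symm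
      · exact hT k h
    have h1 := LC_sym hn A hA hodd hT' n hn le_rfl
    rw [Sj_top] at h1
    have hsc : Perm.sign (1 : Perm (Fin n)) ≠ Perm.sign c := by
      rw [hodd c hcA, Perm.sign_one]; decide
    obtain ⟨l, hl⟩ := h1 1 (Subgroup.mem_top _) c (Subgroup.mem_top _) hsc
    have hcl : Subgroup.closure A = ⊤ := closure_eq (fun a _ => Subgroup.mem_top a) hl
    refine ⟨Or.inr hcl, ?_, ?_⟩
    · intro x _ y _ _ hs
      obtain ⟨l, h1, h2, h3, h4, h5⟩ := h1 x (Subgroup.mem_top _) y (Subgroup.mem_top _) (hs hodd)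
      refine ⟨l, h1, ?_, h3, h4, h5⟩
      intro g
      rw [h2, hcl, SetLike.mem_coe]
    · unfold ClosedListing
      rw [hcl]
      obtain ⟨l, hl⟩ := h1 c (Subgroup.mem_top _) 1 (Subgroup.mem_top _) (Ne.symm hsc)
      exact closed_sub hl (by rwa [inv_one, one_mul])
  · -- an even element in `S_4`
    have hT' : ∀ k : Fin n, 1 ≤ k.val → Pool.Agent.E8helper34.HC.Top A k := by
      intro k hk
      rcases Nat.eq_or_lt_of_le hk with h | h
      · exact hT1 k h.symm
      · exact hT k h
    have h1 := HC_sym hn A hA hT' hb n hn le_rfl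
    rw [Sj_top] at h1
    obtain ⟨h2, h3, h4⟩ := conn ⊤ (fun a _ => Subgroup.mem_top a) h1
    exact ⟨Or.inr h2, fun x hx y hy hxy _ => h3 x hx y hy hxy, h4⟩

end Pool.Agent.Results.MP_688fd0_co.PermutationChainsH34
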